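import Pool.Agent.Lib_helper69.HM.D2
import Pool.Agent.Lib_helper69.HM.H1
import Pool.Agent.Lib_helper69.HM.P2
import Pool.Agent.Lib_helper69.HM.Y1

open MeasureTheory Finset
open scoped ENNReal

namespace Pool.Agent.HM

/-- the set of the fields whose boundary values are not much larger than the value at `p` -/
def H2_S {G : Type} (p : G) (B : Finset G) (h : ℝ) : Set (G → ℝ) :=
  {f | 0 ≤ f p ∧ ∀ y ∈ B, f y ≤ f p + h}

theorem H2_S_meas {G : Type} (p : G) (B : Finset G) (h : ℝ) : MeasurableSet (H2_S p B h) := by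
  have e : H2_S p B h = {f : G → ℝ | 0 ≤ f p} ∩ ⋂ y ∈ B, {f : G → ℝ | f y ≤ f p + h} := by
    ext f
    simp [H2_S]
  rw [e]
  refine MeasurableSet.inter ?_ ?_
  · exact measurableSet_le measurable_const (measurable_pi_apply p)
  · exact Finset.measurableSet_biInter _ fun y _ =>
      measurableSet_le (by fun_prop) (by fun_prop)

theorem H2_half {ρ : ℝ → ℝ} (hρ : EdgeWeight ρ) {m : ℝ} (hm : 0 < m) (N : ℕ) (p : Tor N) :
    1 / 2 ≤ muT ρ m N false {f | 0 ≤ f p} := by
  have := muT_prob hρ hm N false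
  have m1 : MeasurableSet {f : Tor N → ℝ | f p < 0} :=
    measurableSet_lt (measurable_pi_apply p) measurable_const
  have h1 : muT ρ m N false {f | f p < 0} ≤ muT ρ m N false {f | 0 ≤ f p} := by
    rw [← muT_neg (m := m) hρ N false, Measure.map_apply measurable_neg m1,
      muT_neg (m := m) hρ N false]
    apply measure_mono
    intro f hf
    have hf' : (-f) p < 0 := hf
    rw [Pi.neg_apply] at hf'
    show 0 ≤ f p
    linarith
  have h2 : (1 : ℝ≥0∞) ≤ muT ρ m N false {f | 0 ≤ f p} + muT ρ m N false {f | f p < 0} := by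
    rw [← measure_univ (μ := muT ρ m N false)]
    refine le_trans (measure_mono ?_) (measure_union_le _ _)
    intro f _
    rcases le_or_gt 0 (f p) with h | h
    · exact Or.inl h
    · exact Or.inr h
  have h3 : (1 : ℝ≥0∞) ≤ muT ρ m N false {f | 0 ≤ f p} * 2 := by
    rw [mul_two]
    exact h2.trans (add_le_add le_rfl h1)
  rw [ENNReal.div_le_iff (by norm_num) (by norm_num)]
  exact h3

theorem H2_card (n : ℕ) : (box n).card = (2 * n + 1) ^ 2 := by
  unfold box
  rw [card_product, Int.card_Icc]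
  have : ((n : ℤ) + 1 - -(n : ℤ)).toNat = 2 * n + 1 := by omega
  rw [this, sq]

/-- probability of the set `H2_S` -/
theorem H2_prob {ρ : ℝ → ℝ} (hρ : EdgeWeight ρ) {m : ℝ} (hm : 0 < m) (N R : ℕ) (h : ℝ)
    (Ω : Finset (ℤ × ℤ)) {q : ℝ≥0∞} (y0 : ℤ × ℤ)
    (hq : ∀ y ∈ box (R + 1),
      muT ρ m N false {f | h ≤ f (proj N false y) - f (proj N false y0)} ≤ q) :
    1 / 2 ≤ muT ρ m N false
      (H2_S (proj N false y0) ((box (R + 1) \ Ω).image (proj N false)) h) +
        (2 * R + 3) ^ 2 * q := by
  refine (H2_half hρ hm N (proj N false y0)).trans ?_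
  have h1 : {f : Tor N → ℝ | 0 ≤ f (proj N false y0)} ⊆
      H2_S (proj N false y0) ((box (R + 1) \ Ω).image (proj N false)) h ∪
      ⋃ y ∈ box (R + 1), {f : Tor N → ℝ | h ≤ f (proj N false y) - f (proj N false y0)} := by
    intro f hf
    by_cases hc : ∀ y ∈ (box (R + 1) \ Ω).image (proj N false), f y ≤ f (proj N false y0) + h
    · exact Or.inl ⟨hf, hc⟩
    · right
      push Not at hc
      obtain ⟨y, hy, hy'⟩ := hc
      obtain ⟨z, hz, rfl⟩ := Finset.mem_image.1 hy
      rw [Finset.mem_sdiff] at hz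
      rw [Set.mem_iUnion₂]
      refine ⟨z, hz.1, ?_⟩
      show h ≤ _
      linarith
  refine (measure_mono h1).trans ((measure_union_le _ _).trans (add_le_add le_rfl ?_))
  refine (measure_biUnion_finset_le _ _).trans ?_
  refine (Finset.sum_le_sum fun y hy => hq y hy).trans ?_
  rw [Finset.sum_const, H2_card, nsmul_eq_mul]
  apply le_of_eq
  congr 1
  push_cast
  ring

theorem H2_num {s q a : ℝ≥0∞} (h1 : 1 / 2 ≤ s + a) (h2 : a ≤ 1 / 5000) (h3 : 9 * q ≤ a)
    (h4 : (1 / 1000) * s ≤ q) : False := by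
  have ha : a ≠ ∞ := ne_top_of_le_ne_top (by
    apply ENNReal.div_ne_top <;> norm_num) h2
  have hq : q ≠ ∞ := by
    intro h
    rw [h, ENNReal.mul_top (by norm_num)] at h3
    exact ha (top_le_iff.1 h3)
  have hs : s ≠ ∞ := by
    intro h
    rw [h, ENNReal.mul_top (by simp)] at h4
    exact hq (top_le_iff.1 h4)
  have g1 := ENNReal.toReal_mono (ENNReal.add_ne_top.2 ⟨hs, ha⟩) h1
  have g2 := ENNReal.toReal_mono (by apply ENNReal.div_ne_top <;> norm_num) h2
  have g3 := ENNReal.toReal_mono ha h3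
  have g4 := ENNReal.toReal_mono hq h4
  rw [ENNReal.toReal_add hs ha] at g1
  rw [ENNReal.toReal_mul] at g3 g4
  rw [ENNReal.toReal_div] at g1 g2 g4
  norm_num at g1 g2 g3 g4
  linarith

/-- from increments in the torus with mass to the tail for zero boundary values with mass -/
theorem torus_to_domain {ρ : ℝ → ℝ} (hρ : EdgeWeight ρ) {m : ℝ} (hm : 0 < m) {R N : ℕ}
    (hN : 2 * (R + 1) ≤ N) {h : ℝ} (hh : 0 ≤ h) {q : ℝ≥0∞}
    (hq : ∀ y ∈ box (R + 1), ∀ y' ∈ box (R + 1),
      muT ρ m N false {f | h ≤ f (proj N false y) - f (proj N false y')} ≤ q)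
    (hq' : (2 * R + 3) ^ 2 * q ≤ 1 / 5000) {Ω : Finset (ℤ × ℤ)} (hΩ : Ω ⊆ box R)
    {x : ℤ × ℤ} (hx : x ∈ Ω) :
    lm Ω (Set.indicator {f | f x < -(2 * h)} (wt ρ m zstp Ω)) 0 ≤
      (1 / 1000) * lm Ω (wt ρ m zstp Ω) 0 := by
  by_contra hcon
  rw [not_le] at hcon
  set y0 : ℤ × ℤ := ((R : ℤ) + 1, 0) with hy0
  have hbR : ∀ y : ℤ × ℤ, y ∈ box R → y ∈ box (R + 1) := by
    intro y hy
    unfold box at hy ⊢
    rw [Finset.mem_product, Finset.mem_Icc, Finset.mem_Icc] at hy ⊢
    push_cast
    refine ⟨⟨?_, ?_⟩, ?_, ?_⟩ <;> linarith [hy.1.1, hy.1.2, hy.2.1, hy.2.2]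
  have hy0b : y0 ∈ box (R + 1) := by
    unfold box
    rw [Finset.mem_product, Finset.mem_Icc, Finset.mem_Icc, hy0]
    push_cast
    have := Int.natCast_nonneg R
    refine ⟨⟨?_, ?_⟩, ?_, ?_⟩ <;> linarith
  have hy0Ω : y0 ∉ Ω := by
    intro hc
    have := hΩ hc
    unfold box at this
    rw [Finset.mem_product, Finset.mem_Icc, Finset.mem_Icc, hy0] at this
    have h1 := this.1.2
    simp only at h1
    linarith
  have hxb : x ∈ box (R + 1) := hbR x (hΩ hx)
  have hinj := proj_inj (n := R + 1) hN false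
  have hout : ∀ y ∈ box (R + 1), y ∉ Ω → proj N false y ∉ Ω.image (proj N false) := by
    intro y hy hyΩ hc
    obtain ⟨z, hz, hzy⟩ := Finset.mem_image.1 hc
    have := hinj (Finset.mem_coe.2 (hbR z (hΩ hz))) (Finset.mem_coe.2 hy) hzy
    rw [this] at hz
    exact hyΩ hz
  set S := H2_S (proj N false y0) ((box (R + 1) \ Ω).image (proj N false)) h with hS
  have hSm : MeasurableSet S := H2_S_meas _ _ _
  have hprob := H2_prob hρ hm N R h Ω y0 (fun y hy => hq y hy y0 hy0b)
  rw [← hS] at hprob
  have hwm : Measurable (wt ρ m zstp Ω) := by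
    have := measurable_rest hρ m zstp Ω ∅
    have e : wt ρ m zstp Ω = fun f => wt ρ m zstp ∅ f * rest ρ m zstp Ω ∅ f := by
      funext f
      exact wt_split ρ m zstp (Finset.empty_subset Ω) f
    rw [e]
    have e2 : wt ρ m zstp (∅ : Finset (ℤ × ℤ)) = fun _ => 1 := by
      funext f
      simp [wt, edges]
    rw [e2]
    simpa using this
  have hwTm : Measurable (wt ρ m (stpT N false) (univ : Finset (Tor N))) := by
    have := measurable_rest hρ m (stpT N false) (univ : Finset (Tor N)) ∅
    have e : wt ρ m (stpT N false) (univ : Finset (Tor N)) =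
        fun f => wt ρ m (stpT N false) ∅ f * rest ρ m (stpT N false) univ ∅ f := by
      funext f
      exact wt_split ρ m (stpT N false) (Finset.empty_subset _) f
    rw [e]
    have e2 : wt ρ m (stpT N false) (∅ : Finset (Tor N)) = fun _ => 1 := by
      funext f
      simp [wt, edges]
    rw [e2]
    simpa using this
  have hZ0 : lm Ω (wt ρ m zstp Ω) 0 ≠ 0 := (lm_wt_pos_const hρ m zstp Ω 0).ne'
  have hZ1 : lm Ω (wt ρ m zstp Ω) 0 ≠ ∞ := (lm_wt_lt_top hρ hm zstp Ω 0).ne
  -- the event
  have mF : MeasurableSet {g : Tor N → ℝ | g (proj N false x) < g (proj N false y0) - h} :=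
    measurableSet_lt (by fun_prop) (by fun_prop)
  have mF' : MeasurableSet {g : ℤ × ℤ → ℝ | g x < g y0 - h} :=
    measurableSet_lt (by fun_prop) (by fun_prop)
  have hSdep : ∀ f g : Tor N → ℝ, (∀ z ∉ Ω.image (proj N false), f z = g z) →
      (f ∈ S ↔ g ∈ S) := by
    intro f g hfg
    have e1 := hfg _ (hout y0 hy0b hy0Ω)
    have e2 : ∀ y ∈ (box (R + 1) \ Ω).image (proj N false), f y = g y := by
      intro y hy
      obtain ⟨z, hz, rfl⟩ := Finset.mem_image.1 hy
      rw [Finset.mem_sdiff] at hz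
      exact hfg _ (hout z hz.1 hz.2)
    show (0 ≤ f (proj N false y0) ∧ _) ↔ (0 ≤ g (proj N false y0) ∧ _)
    rw [e1]
    refine and_congr_right fun _ => forall₂_congr fun y hy => ?_
    rw [e2 y hy]
  have hloc : ∀ f ∈ S, (1 / 1000 : ℝ≥0∞) *
      lm (Ω.image (proj N false)) (wt ρ m (stpT N false) (Ω.image (proj N false))) f ≤
      lm (Ω.image (proj N false)) (fun g =>
        ({g : Tor N → ℝ | g (proj N false x) < g (proj N false y0) - h}.indicator 1) g *
          wt ρ m (stpT N false) (Ω.image (proj N false)) g) f := by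
    intro f hf
    have hf0 : 0 ≤ f (proj N false y0) := hf.1
    have hfb : ∀ y ∈ box (R + 1), y ∉ Ω → f (proj N false y) ≤ f (proj N false y0) + h := by
      intro y hy hyΩ
      exact hf.2 _ (Finset.mem_image_of_mem _ (Finset.mem_sdiff.2 ⟨hy, hyΩ⟩))
    have c1 := compare_shift hρ m zstp Ω (c := f (proj N false y0) + h) (by linarith)
      (f ∘ proj N false) (fun p hp => ⟨fun hp1 => hfb _ (box_nbr hΩ hp).1 hp1,
        fun hp1 => hfb _ (box_nbr hΩ hp).2 hp1⟩) hx (-(2 * h))
    have p1 := lm_proj hρ m hN false hΩ (F := fun _ => 1) measurable_const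
      (fun _ _ _ => rfl) f
    simp only [one_mul] at p1
    have p2 := lm_proj hρ m hN false hΩ
      (F := {g : ℤ × ℤ → ℝ | g x < g y0 - h}.indicator 1) (measurable_one.indicator mF')
      (by
        intro f g hfg
        have e1 := hfg x hxb
        have e2 := hfg y0 hy0b
        by_cases hc : g x < g y0 - h
        · rw [Set.indicator_of_mem (show f ∈ {g : ℤ × ℤ → ℝ | g x < g y0 - h} by
              show f x < f y0 - h
              rw [e1, e2]; exact hc),
            Set.indicator_of_mem (show g ∈ {g : ℤ × ℤ → ℝ | g x < g y0 - h} from hc)]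
          rfl
        · rw [Set.indicator_of_notMem (show f ∉ {g : ℤ × ℤ → ℝ | g x < g y0 - h} by
              show ¬ f x < f y0 - h
              rw [e1, e2]; exact hc),
            Set.indicator_of_notMem (show g ∉ {g : ℤ × ℤ → ℝ | g x < g y0 - h} from hc)])
      f
    have p3 : lm (Ω.image (proj N false)) (fun g =>
        ({g : Tor N → ℝ | g (proj N false x) < g (proj N false y0) - h}.indicator 1) g *
          wt ρ m (stpT N false) (Ω.image (proj N false)) g) f =
        lm Ω (Set.indicator {g | g x < f (proj N false y0) + h + -(2 * h)} (wt ρ m zstp Ω))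
          (f ∘ proj N false) := by
      refine Eq.trans ?_ (p2.trans ?_)
      · rfl
      · unfold lm lmarginal
        refine lintegral_congr fun y => ?_
        beta_reduce
        have e0 : Function.updateFinset (f ∘ proj N false) Ω y y0 = f (proj N false y0) := by
          rw [Function.updateFinset]
          simp [hy0Ω]
        by_cases hc : Function.updateFinset (f ∘ proj N false) Ω y x <
            f (proj N false y0) + h + -(2 * h)
        · rw [Set.indicator_of_mem (show _ ∈ {g : ℤ × ℤ → ℝ | g x < g y0 - h} by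
              show _ < _ - h
              rw [e0]; linarith),
            Set.indicator_of_mem (show Function.updateFinset (f ∘ proj N false) Ω y ∈
              {g : ℤ × ℤ → ℝ | g x < f (proj N false y0) + h + -(2 * h)} from hc)]
          simp
        · rw [Set.indicator_of_notMem (show _ ∉ {g : ℤ × ℤ → ℝ | g x < g y0 - h} by
              show ¬ _ < _ - h
              rw [e0]; intro hc'; apply hc; linarith),
            Set.indicator_of_notMem (show Function.updateFinset (f ∘ proj N false) Ω y ∉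
              {g : ℤ × ℤ → ℝ | g x < f (proj N false y0) + h + -(2 * h)} from hc)]
          simp
    rw [p3, p1]
    rw [← ENNReal.mul_le_mul_iff_right hZ0 hZ1]
    refine le_trans ?_ c1
    calc lm Ω (wt ρ m zstp Ω) 0 * ((1 / 1000 : ℝ≥0∞) *
          lm Ω (fun f => wt ρ m zstp Ω f) (f ∘ proj N false))
        = ((1 / 1000 : ℝ≥0∞) * lm Ω (wt ρ m zstp Ω) 0) *
          lm Ω (fun f => wt ρ m zstp Ω f) (f ∘ proj N false) := by ring
      _ ≤ _ := by
          gcongr
  have hdlr := dlr_ge hρ m (stpT N false) (Finset.subset_univ (Ω.image (proj N false)))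
    (F := {g : Tor N → ℝ | g (proj N false x) < g (proj N false y0) - h}.indicator 1)
    (measurable_one.indicator mF) hSm hSdep hloc 0
  have hmu : (1 / 1000 : ℝ≥0∞) * muT ρ m N false S ≤ q := by
    refine le_trans ?_ (hq y0 hy0b x hxb)
    have a1 : muT ρ m N false S = _ := gib_apply hwTm univ 0 hSm
    have mQ : MeasurableSet {f : Tor N → ℝ | h ≤ f (proj N false y0) - f (proj N false x)} :=
      measurableSet_le measurable_const (by fun_prop)
    have a2 : muT ρ m N false {f : Tor N → ℝ | h ≤ f (proj N false y0) - f (proj N false x)} = _ :=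
      gib_apply hwTm univ 0 mQ
    rw [a1, a2, mul_left_comm]
    gcongr
    refine hdlr.trans ?_
    unfold lm lmarginal
    refine lintegral_mono fun y => ?_
    set g := Function.updateFinset (0 : Tor N → ℝ) univ y with hg
    by_cases g1 : g ∈ S
    · rw [Set.indicator_of_mem g1]
      by_cases g2 : g (proj N false x) < g (proj N false y0) - h
      · rw [Set.indicator_of_mem (show g ∈ {g : Tor N → ℝ | g (proj N false x) <
            g (proj N false y0) - h} from g2),
          Set.indicator_of_mem (show g ∈ {f : Tor N → ℝ | h ≤ f (proj N false y0) -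
            f (proj N false x)} by
            show h ≤ _
            linarith)]
        simp
      · rw [Set.indicator_of_notMem (show g ∉ {g : Tor N → ℝ | g (proj N false x) <
            g (proj N false y0) - h} from g2)]
        simp
    · rw [Set.indicator_of_notMem g1]
      exact zero_le
  refine H2_num hprob hq' ?_ hmu
  gcongr
  have : (3 : ℝ≥0∞) ≤ 2 * (R : ℝ≥0∞) + 3 := le_add_self
  calc (9 : ℝ≥0∞) = 3 ^ 2 := by norm_num
    _ ≤ (2 * (R : ℝ≥0∞) + 3) ^ 2 := by gcongr

end Pool.Agent.HM
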